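import Mathlib

namespace Pool.Agent.Results.MP_16faa7_an.Convex

open Set

/-- The admissible exponents. -/
def S (γ α : ℝ) : Set ℝ :=
  {β | 0 < β ∧ ∀ z ∈ Ioo (0 : ℝ) 1, γ * z ^ (β - α) * (1 - z ^ α) ≤ 1 - z}

/-- The threshold exponent. -/
noncomputable def thr (γ α : ℝ) : ℝ := sInf (S γ α)

lemma nonempty {γ α : ℝ} (hγ : 1 < γ) (h : α ∈ Ioo 0 (1 / γ)) : (S γ α).Nonempty := by
  obtain ⟨h0, h1⟩ := h
  rw [lt_div_iff₀ (by linarith)] at h1
  refine ⟨α + 1, by linarith, fun z ⟨z0, z1⟩ => ?_⟩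
  rw [add_sub_cancel_left, Real.rpow_one, Real.rpow_def_of_pos z0]
  have a1 := Real.add_one_le_exp (Real.log z * α)
  have a2 := Real.one_sub_inv_le_log_of_pos z0
  have a3 : z * -Real.log z ≤ 1 - z := by
    calc z * -Real.log z ≤ z * (z⁻¹ - 1) := by gcongr; linarith
      _ = 1 - z := by field_simp
  calc γ * z * (1 - Real.exp (Real.log z * α)) ≤ γ * z * (-Real.log z * α) := by gcongr; linarith
    _ = α * γ * (z * -Real.log z) := by ring
    _ ≤ 1 * (1 - z) := by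
      gcongr
      exact mul_nonneg z0.le (by linarith [Real.log_neg z0 z1])
    _ = 1 - z := one_mul _

lemma log_form {γ α β s : ℝ} (hγ : 0 < γ) (hα : 0 < α) (hs : 0 < s) :
    γ * Real.exp (-(s / α)) ^ (β - α) * (1 - Real.exp (-(s / α)) ^ α) ≤ 1 - Real.exp (-(s / α)) ↔
    Real.log (γ * (1 - Real.exp (-s))) - s / α * (β - α) ≤ Real.log (1 - Real.exp (-(s / α))) := by
  have p1 : 0 < 1 - Real.exp (-s) := sub_pos.2 (Real.exp_lt_one_iff.2 (by linarith))
  have p2 : 0 < 1 - Real.exp (-(s / α)) := sub_pos.2 (Real.exp_lt_one_iff.2 (neg_neg_of_pos (by positivity)))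
  rw [← Real.exp_mul, ← Real.exp_mul, show -(s / α) * α = -s by field_simp,
    Real.le_log_iff_exp_le p2, Real.exp_sub, Real.exp_log (by positivity), neg_mul, Real.exp_neg]
  constructor <;> intro h <;> convert h using 1 <;> field_simp

lemma mix {γ a b x y t u : ℝ} (hγ : 0 < γ) (ha : 0 < a) (hb : 0 < b) (hx : x ∈ S γ a)
    (hy : y ∈ S γ b) (ht : 0 ≤ t) (hu : 0 ≤ u) (h : t + u = 1) :
    t * x + u * y ∈ S γ (t * a + u * b) := by
  have pos : ∀ p q : ℝ, 0 < p → 0 < q → 0 < t * p + u * q := fun p q hp hq =>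
    (convex_Ioi (0 : ℝ)) hp hq ht hu h
  set c := t * a + u * b with hc
  have c0 : 0 < c := pos a b ha hb
  refine ⟨pos x y hx.1 hy.1, fun z ⟨z0, z1⟩ => ?_⟩
  set s := -Real.log z * c with hs
  have s0 : 0 < s := mul_pos (by linarith [Real.log_neg z0 z1]) c0
  have hz : z = Real.exp (-(s / c)) := by
    rw [hs, mul_div_cancel_right₀ _ c0.ne', neg_neg, Real.exp_log z0]
  have mem : ∀ p : ℝ, 0 < p → Real.exp (-(s / p)) ∈ Ioo (0 : ℝ) 1 := fun p hp =>
    ⟨Real.exp_pos _, Real.exp_lt_one_iff.2 (neg_neg_of_pos (by positivity))⟩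
  have h1 := (log_form hγ ha s0).1 (hx.2 _ (mem a ha))
  have h2 := (log_form hγ hb s0).1 (hy.2 _ (mem b hb))
  rw [hz, log_form hγ c0 s0]
  have l0 : 0 ≤ t * a / c := by positivity
  have m0 : 0 ≤ u * b / c := by positivity
  have lm : t * a / c + u * b / c = 1 := by rw [← add_div, div_self c0.ne']
  have e1 := convexOn_exp.2 (mem_univ (-(s / a))) (mem_univ (-(s / b))) l0 m0 lm
  have e2 := strictConcaveOn_log_Ioi.concaveOn.2 (show 1 - Real.exp (-(s / a)) ∈ Ioi 0 from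
    sub_pos.2 (mem a ha).2) (show 1 - Real.exp (-(s / b)) ∈ Ioi 0 from sub_pos.2 (mem b hb).2)
    l0 m0 lm
  simp only [smul_eq_mul] at e1 e2
  have e3 : t * a / c * -(s / a) + u * b / c * -(s / b) = -(s / c) := by
    field_simp
    linear_combination (-1 : ℝ) * h
  rw [e3] at e1
  have e4 : Real.log (t * a / c * (1 - Real.exp (-(s / a))) + u * b / c * (1 - Real.exp (-(s / b))))
      ≤ Real.log (1 - Real.exp (-(s / c))) := by
    refine Real.log_le_log ((convex_Ioi (0 : ℝ)) (sub_pos.2 (mem a ha).2) (sub_pos.2 (mem b hb).2)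
      l0 m0 lm) ?_
    linarith
  have e5 : s / c * (t * x + u * y - c) =
      t * a / c * (s / a * (x - a)) + u * b / c * (s / b * (y - b)) := by
    field_simp
    ring
  rw [e5]
  set K := Real.log (γ * (1 - Real.exp (-s)))
  have e6 : K = t * a / c * K + u * b / c * K := by rw [← add_mul, lm, one_mul]
  nlinarith [mul_le_mul_of_nonneg_left h1 l0, mul_le_mul_of_nonneg_left h2 m0]

theorem result (γ : ℝ) (hγ : 1 < γ) : ConvexOn ℝ (Ioo 0 (1 / γ)) (thr γ) := by
  refine ⟨convex_Ioo _ _, fun a ha b hb t u ht hu h => ?_⟩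
  simp only [smul_eq_mul]
  have bdd : ∀ α, BddBelow (S γ α) := fun α => ⟨0, fun _ h => h.1.le⟩
  refine le_of_forall_pos_le_add fun e he => ?_
  obtain ⟨x, hx, x1⟩ := exists_lt_of_csInf_lt (nonempty hγ ha) (lt_add_of_pos_right _ he)
  obtain ⟨y, hy, y1⟩ := exists_lt_of_csInf_lt (nonempty hγ hb) (lt_add_of_pos_right _ he)
  have := csInf_le (bdd _) (mix (by linarith) ha.1 hb.1 hx hy ht hu h)
  unfold thr
  nlinarith [mul_le_mul_of_nonneg_left x1.le ht, mul_le_mul_of_nonneg_left y1.le hu]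

end Pool.Agent.Results.MP_16faa7_an.Convex
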